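import Mathlib.LinearAlgebra.Matrix.Determinant.Basic
import Mathlib.LinearAlgebra.Matrix.NonsingularInverse
import Mathlib.Data.ZMod.Basic
import Mathlib.Data.List.Rotate
import Mathlib.Tactic

/-!
# The modular quiddity equation `(E_N)`: definitions and basic lemmas
-/

namespace Pool.Agent.Q251.Quiddity

open Matrix

/-- The matrix `(a, -1; 1, 0)`. -/
def A {N : ℕ} (a : ZMod N) : Matrix (Fin 2) (Fin 2) (ZMod N) := !![a, -1; 1, 0]

/-- `M [a_1, …, a_n] = A(a_n) ⋯ A(a_1)`. -/
def M {N : ℕ} : List (ZMod N) → Matrix (Fin 2) (Fin 2) (ZMod N)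
  | [] => 1
  | a :: l => M l * A a

/-- A solution of `(E_N)`: a tuple with `M = ±Id`. -/
def IsSolution {N : ℕ} (l : List (ZMod N)) : Prop := M l = 1 ∨ M l = -1

/-- `IsSum x y s` says that `s = x ⊕ y`, where
`(a_1,…,a_n) ⊕ (b_1,…,b_m) = (a_1 + b_m, a_2, …, a_{n-1}, a_n + b_1, b_2, …, b_{m-1})`. -/
def IsSum {N : ℕ} (x y s : List (ZMod N)) : Prop :=
  ∃ (a₁ : ZMod N) (as : List (ZMod N)) (aₙ b₁ : ZMod N) (bs : List (ZMod N)) (bₘ : ZMod N),
    x = a₁ :: (as ++ [aₙ]) ∧ y = b₁ :: (bs ++ [bₘ]) ∧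
      s = (a₁ + bₘ) :: (as ++ (aₙ + b₁) :: bs)

/-- `x ∼ y`: `y` is a cyclic rotation of `x` or of the reversal of `x`. -/
def Equiv {N : ℕ} (x y : List (ZMod N)) : Prop := y ~r x ∨ y ~r x.reverse

/-- An irreducible solution: a solution of size at least `3` which is not equivalent to a sum of two
solutions, each of size at least `3`. -/
def IsIrreducible {N : ℕ} (l : List (ZMod N)) : Prop :=
  IsSolution l ∧ 3 ≤ l.length ∧
    ¬ ∃ x y s : List (ZMod N), IsSolution x ∧ 3 ≤ x.length ∧ IsSolution y ∧ 3 ≤ y.length ∧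
      IsSum x y s ∧ Equiv l s

variable {N : ℕ}

@[simp] lemma M_nil : M ([] : List (ZMod N)) = 1 := rfl

@[simp] lemma M_cons (a : ZMod N) (l : List (ZMod N)) : M (a :: l) = M l * A a := rfl

lemma M_append (l l' : List (ZMod N)) : M (l ++ l') = M l' * M l := by
  induction l with
  | nil => simp
  | cons a l ih => rw [List.cons_append, M_cons, M_cons, ih, mul_assoc]

lemma det_A (a : ZMod N) : (A a).det = 1 := by simp [A, Matrix.det_fin_two]

lemma det_M (l : List (ZMod N)) : (M l).det = 1 := by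
  induction l with
  | nil => simp
  | cons a l ih => rw [M_cons, Matrix.det_mul, ih, det_A, mul_one]

/-- The continuant of the inner part of a solution is `±1`. -/
lemma continuant_of_solution {b₁ bₘ : ZMod N} {bs : List (ZMod N)}
    (h : IsSolution (b₁ :: (bs ++ [bₘ]))) : M bs 0 0 = 1 ∨ M bs 0 0 = -1 := by
  have hM : M (b₁ :: (bs ++ [bₘ])) = A bₘ * M bs * A b₁ := by
    rw [M_cons, M_append, M_cons, M_nil, one_mul]
  have key : (A bₘ * M bs * A b₁) 1 1 = - M bs 0 0 := by
    simp [A, Matrix.mul_apply, Fin.sum_univ_two, Matrix.vecMul, dotProduct]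
  rcases h with h | h
  · right
    rw [hM] at h
    rw [h] at key
    simp at key
    rw [key]; ring
  · left
    rw [hM] at h
    rw [h] at key
    simp at key
    exact key.symm

end Pool.Agent.Q251.Quiddity
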